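import Pool.Agent.Y247.Hil.Nec8

/-!
# Weights for the Hilbert transform on functions of mean zero

The definitions (`hilbert`, `IsWeight`, `mean`, `MemAp`, `Admissible`) are in
`Pool.Agent.Y247.Hil.Defs`.

Sufficiency. For `α(y) = y - c` and a mean zero `f` one has `α(x) Hf(x) = H(α f)(x)` for almost
every `x`, so that the weighted `A_p` bound for the Hilbert transform (proved here for the maximal
truncations) applied to `α f` and the weight `U / |α|^p` gives the inequality. The three conditions
correspond to no factor, a factor with a real zero `c`, and a factor with a non-real zero.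

Necessity. Let `σ = U^{-1/(p-1)}`. Test functions are `h / α - m g` with `h ≥ 0` on an interval
`I`, `m` the integral of `h / α`, and `g ≥ 0` a compensating function of integral one.
* If `σ` is not integrable near some point `c`, one takes `α(y) = y - c` and `g` near `c`,
  at no cost, and gets `U / |x - c|^p` in `A_p`.
* If `σ` is locally integrable, but not integrable, one takes `α = 1` and `g` far away, at no cost,
  and gets `U` in `A_p`.
* If `σ` is integrable, the cost of a fixed bump `g` is controlled by Hölder's inequality, and the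
  sign of its contribution is favourable for a suitable place of the bump. This gives
  `U / (1 + |x|)^p` in `A_p`.
-/

set_option autoImplicit false

open MeasureTheory Filter Topology
open Pool.Agent.Y247.Hil

namespace Pool.Agent.Results.MP_945c9c_an.MeanZeroWeights

/-- Sanity: for integrable `f` the principal value exists almost everywhere, and `hilbert` is its
value. -/
lemma hilbert_pv (f : ℝ → ℂ) (hf : Integrable f) : ∀ᵐ x : ℝ,
    Tendsto (fun δ : ℝ => (1 / (Real.pi : ℂ)) * ∫ y in {y : ℝ | δ < |y - x|}, f y / ((x : ℂ) - y))
      (𝓝[>] 0) (𝓝 (hilbert f x)) := by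
  filter_upwards [hilbert_tendsto hf] with x hx
  exact hx

/-- The admissible weights: `U` is admissible if and only if `U`, or `U / |x - c|^p` for some real
`c`, or `U / (1 + |x|)^p` belongs to `A_p`. -/
theorem result (p : ℝ) (hp : 1 < p) (U : ℝ → ℝ) (hU : IsWeight U) :
    Admissible p U ↔
      MemAp p U ∨ (∃ c : ℝ, MemAp p fun x => U x / |x - c| ^ p) ∨
        MemAp p fun x => U x / (1 + |x|) ^ p := by
  refine ⟨fun hA => necessity hp hU hA, ?_⟩
  rintro (h | ⟨c, h⟩ | h)
  · exact suff_one hp h
  · have hn : ∀ x : ℝ, ‖(x : ℂ) - (c : ℂ)‖ = |x - c| := by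
      intro x
      rw [← Complex.ofReal_sub, Complex.norm_real, Real.norm_eq_abs]
    refine suff_gen hp h (c : ℂ) (fun x => |x - c|) (fun x => (hn x).le) (fun x => ?_) ?_
    · rw [hn x]
      have := abs_nonneg (x - c)
      linarith
    · have h1 : ∀ᵐ x : ℝ, x ≠ c := by
        rw [ae_iff]; simp
      filter_upwards [h1] with x hx
      rw [div_mul_cancel₀]
      exact (Real.rpow_pos_of_pos (abs_pos.2 (sub_ne_zero.2 hx)) _).ne'
  · have hn : ∀ x : ℝ, ‖(x : ℂ) - Complex.I‖ ^ 2 = x ^ 2 + 1 := by
      intro x
      rw [← Complex.normSq_eq_norm_sq, Complex.normSq_apply]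
      simp
      ring
    refine suff_gen hp h Complex.I (fun x => 1 + |x|) (fun x => ?_) (fun x => ?_)
      (ae_of_all _ fun x => ?_)
    · have h0 := abs_nonneg x
      apply abs_le_of_sq_le_sq' _ (by linarith) |>.2
      rw [hn x, ← sq_abs x]
      nlinarith
    · have h0 := abs_nonneg x
      have h1 := norm_nonneg ((x : ℂ) - Complex.I)
      have h2 := hn x
      rw [← sq_abs x] at h2
      apply abs_le_of_sq_le_sq' _ (by linarith) |>.2
      nlinarith [sq_nonneg (|x| - 1)]
    · have h0 : (0:ℝ) < 1 + |x| := by have := abs_nonneg x; linarith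
      rw [div_mul_cancel₀]
      exact (Real.rpow_pos_of_pos h0 _).ne'

end Pool.Agent.Results.MP_945c9c_an.MeanZeroWeights
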